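import Pool.Agent.H86.HT.Def
import Pool.Agent.H51.TC.Wts

/-!
# H86-HS-DEF: surjective homomorphisms to `H` (MP_b39724_nt, think 1781): definitions

A surjective `φ : Γ → G` gives a surjective `ph ∘ φ : Γ → H`.
* `RBs K Ω H θ`: at most `C Y^(θ+ε)` surjective homomorphisms of finite type to `H` with product of the norms of the ramified primes at most `Y`. `RBLs D L H θ`: the same outside `S0`.
* `HBs`, `HRs`: the surjective homomorphisms in `HB`, `HR` (H51/TC/Def).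
* `rbs_of`: from `RBt` (all homomorphisms).
-/

set_option autoImplicit false

open scoped NumberField
open IsDedekindDomain H38.ML Filter Topology
open scoped Classical

noncomputable section

namespace H86.HS

open H63.MA H38.BB H38.BG H38.AS H77.FLD H51.TC

/-- at most `C Y^(θ+ε)` surjective homomorphisms with product of the norms of the ramified primes
`≤ Y` -/
def RBs (K : Type) [Field K] [NumberField K] (Ω : Type) [Field Ω] [Algebra K Ω] (H : Type)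
    [Group H] (θ : ℝ) : Prop :=
  ∀ (Q : DP K Ω) (ε : ℝ), 0 < ε → ∃ C : ℝ, ∀ Y : ℝ, 1 ≤ Y → ∀ Rs : Finset (Gal(Ω/K) →* H),
    (∀ φ ∈ Rs, H38.ML.FT φ ∧ Function.Surjective φ ∧ ∀ T : Finset (Pl K),
      (∀ v ∈ T, ∃ τ ∈ (Q.P v).inertia Gal(Ω/K), φ τ ≠ 1) → ∏ v ∈ T, (nm v : ℝ) ≤ Y) →
    (Rs.card : ℝ) ≤ C * Y ^ (θ + ε)

theorem rbs_of {K : Type} [Field K] [NumberField K] {Ω : Type} [Field Ω] [Algebra K Ω] {H : Type}
    [Group H] {θ : ℝ} (h : H86.HT.RBt K Ω H θ) : RBs K Ω H θ := by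
  intro Q ε hε
  obtain ⟨C, hC⟩ := h Q ε hε
  exact ⟨C, fun Y hY Rs hRs => hC Y hY Rs fun φ hφ => ⟨(hRs φ hφ).1, (hRs φ hφ).2.2⟩⟩

section defs

variable {K : Type} [Field K] [NumberField K] {Ω : Type} [Field Ω] [Algebra K Ω] {p : ℕ} {ζ : K}

/-- the same outside `S0` -/
def RBLs (D : RD0 K p ζ) (L : LDs D Ω) (H : Type) [Group H] (θ : ℝ) : Prop :=
  ∀ ε : ℝ, 0 < ε → ∃ C : ℝ, ∀ Y : ℝ, 1 ≤ Y → ∀ Rs : Finset (Gal(Ω/K) →* H),
    (∀ φ ∈ Rs, H38.ML.FT φ ∧ Function.Surjective φ ∧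
      ∀ T : Finset (Pl K), (∀ v ∈ T, Rm L φ v) → nr T ≤ Y) →
    (Rs.card : ℝ) ≤ C * Y ^ (θ + ε)

/-- surjective, unramified outside `S0 ∪ A` -/
def HBs (D : RD0 K p ζ) (L : LDs D Ω) (H : Type) [Group H] (A : Finset (Pl K)) :
    Set (Gal(Ω/K) →* H) :=
  {β | β ∈ HB D L H A ∧ Function.Surjective β}

/-- surjective, ramified exactly in `R` outside `S0` -/
def HRs (D : RD0 K p ζ) (L : LDs D Ω) (H : Type) [Group H] (R : Finset (Pl K)) :
    Set (Gal(Ω/K) →* H) :=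
  {β | β ∈ HR D L H R ∧ Function.Surjective β}

theorem hrs_sub (D : RD0 K p ζ) (L : LDs D Ω) (H : Type) [Group H] (R : Finset (Pl K)) :
    HRs D L H R ⊆ HBs D L H R :=
  fun _ hβ => ⟨hr_sub D L H R hβ.1, hβ.2⟩

theorem hbs_sub (D : RD0 K p ζ) (L : LDs D Ω) (H : Type) [Group H] (A : Finset (Pl K)) :
    HBs D L H A ⊆ HB D L H A := fun _ hβ => hβ.1

end defs

end H86.HS
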