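import Pool.Agent.H86.HS.Fin
import Pool.Agent.H51.HC.Rbq
import Pool.Agent.H67.HS.Hyp

/-!
# H86-HS-STM: theorem HT, final form (MP_b39724_nt, think 1781)

`T` = the subgroup generated by the elements of least index, `T ∩ γ_k(G) = 1` for some `k`.
* `le_ucs`, `ucs_le`: `T` is contained in `Z_j(G)` if `G / Z_j(G)` is `1`, `S_3` or `A_4`.
* `rbs_cond`: the counting hypothesis for `G / T` under `CR G T`.
* `ht_fin`: the final statement.
-/

set_option autoImplicit false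

open scoped NumberField
open IsDedekindDomain Filter Topology H38.ML
open scoped Classical

noncomputable section

namespace H86.HS

open H63.MA H38.BB H38.BG H57.PC H57.BRA H63.BU H77.PC3 H57.CC H38.AS H77.S0T H77.AB H77.GN
  H77.UX H77.FLD H77.PLF H51.PF H51.NS H51.F3 H12.S3 H51.HC

section grp

variable {G : Type} [Group G]

/-- a normal subgroup with trivial intersection with a term of the lower central series is contained
in a term of the upper central series -/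
theorem le_ucs (T : Subgroup G) (hT : T.Normal) (k : ℕ)
    (hk : T ⊓ (⊤ : Subgroup G).lowerCentralSeries k = ⊥) :
    T ≤ Subgroup.upperCentralSeries G k := by
  have h : ∀ i, i ≤ k → T ⊓ (⊤ : Subgroup G).lowerCentralSeries (k - i) ≤
      Subgroup.upperCentralSeries G i := by
    intro i
    induction i with
    | zero =>
      intro _
      rw [Nat.sub_zero, hk]
      exact bot_le
    | succ i ih =>
      intro hi x hx
      rw [Subgroup.mem_upperCentralSeries_succ_iff]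
      intro y
      refine ih (by omega) ⟨?_, ?_⟩
      · rw [commutatorElement_def, mul_assoc, mul_assoc, ← mul_assoc y]
        exact T.mul_mem hx.1 (hT.conj_mem _ (T.inv_mem hx.1) y)
      · have h1 : k - i = (k - (i + 1)) + 1 := by omega
        rw [h1, Subgroup.lowerCentralSeries_succ]
        exact Subgroup.commutator_mem_commutator hx.2 (Subgroup.mem_top y)
  have h2 := h k le_rfl
  rw [Nat.sub_self, Subgroup.lowerCentralSeries_zero, inf_top_eq] at h2
  exact h2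

theorem ucs_le (j : ℕ) (hc : ∀ x : G ⧸ Subgroup.upperCentralSeries G j,
    (∀ y, x * y = y * x) → x = 1) (k : ℕ) :
    Subgroup.upperCentralSeries G k ≤ Subgroup.upperCentralSeries G j := by
  induction k with
  | zero =>
    rw [Subgroup.upperCentralSeries_zero]
    exact bot_le
  | succ k ih =>
    intro x hx
    rw [Subgroup.mem_upperCentralSeries_succ_iff] at hx
    rw [← QuotientGroup.eq_one_iff]
    refine hc _ fun y => ?_
    obtain ⟨y, rfl⟩ := QuotientGroup.mk_surjective y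
    have h1 := ih (hx y)
    rw [← QuotientGroup.eq_one_iff, commutatorElement_def, QuotientGroup.mk_mul,
      QuotientGroup.mk_mul, QuotientGroup.mk_mul, QuotientGroup.mk_inv, QuotientGroup.mk_inv,
      mul_inv_eq_one, mul_inv_eq_iff_eq_mul] at h1
    exact h1

theorem s3_cen : ∀ x : Equiv.Perm (Fin 3), (∀ y, x * y = y * x) → x = 1 := by
  decide +kernel

theorem a4_cen0 : ∀ x : Equiv.Perm (Fin 4), Equiv.Perm.sign x = 1 →
    (∀ y : Equiv.Perm (Fin 4), Equiv.Perm.sign y = 1 → x * y = y * x) → x = 1 := by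
  decide +kernel

theorem a4_cen (x : alternatingGroup (Fin 4)) (h : ∀ y, x * y = y * x) : x = 1 := by
  refine Subtype.ext (a4_cen0 x.1 (Equiv.Perm.mem_alternatingGroup.1 x.2) fun y hy => ?_)
  exact congrArg Subtype.val (h ⟨y, Equiv.Perm.mem_alternatingGroup.2 hy⟩)

theorem cen_of {A B : Type} [Group A] [Group B] (e : A ≃* B)
    (h : ∀ x : B, (∀ y, x * y = y * x) → x = 1) (x : A) (hx : ∀ y, x * y = y * x) : x = 1 := by
  rw [← e.map_eq_one_iff]
  refine h _ fun y => ?_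
  obtain ⟨y, rfl⟩ := e.surjective y
  rw [← map_mul, hx, map_mul]

end grp

/-- the condition on the quotient `G / T` -/
def CR {n : ℕ} (G : Subgroup (Equiv.Perm (Fin n))) (T : Subgroup G) : Prop :=
  (∃ j : ℕ, Subgroup.upperCentralSeries G j = ⊤ ∨
    Nonempty (G ⧸ Subgroup.upperCentralSeries G j ≃* Equiv.Perm (Fin 3)) ∨
    Nonempty (G ⧸ Subgroup.upperCentralSeries G j ≃* alternatingGroup (Fin 4))) ∨
  ∃ (j : ℕ) (U : Subgroup G), T ≤ U.normalCore ∧
    U.normalCore ≤ Subgroup.upperCentralSeries G j ∧ ∀ g : G, g ∉ T →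
      U.index * (U.index - 1) * Spec.indG G < 2 * Spec.ind (g : Equiv.Perm (Fin n))

/-- the counting hypothesis for `G / T` -/
theorem rbs_cond {n : ℕ} (hn : 2 ≤ n) (G : Subgroup (Equiv.Perm (Fin n)))
    (hG : MulAction.IsPretransitive G (Fin n)) (k : ℕ)
    (hk : Subgroup.closure (Li G) ⊓ (⊤ : Subgroup G).lowerCentralSeries k = ⊥)
    (hR : CR G (Subgroup.closure (Li G)))
    (K : IntermediateField ℚ (AlgebraicClosure ℚ)) [NumberField K] (z : K)
    (hz : IsPrimitiveRoot z 3) :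
    ∃ θ : ℝ, 0 ≤ θ ∧
      (∀ g : G, g ∉ Subgroup.closure (Li G) →
        θ * (Spec.indG G : ℝ) < (Spec.ind (g : Equiv.Perm (Fin n)) : ℝ)) ∧
      ∀ (H : Type) [Group H] [Finite H] (ph : G →* H), Function.Surjective ph →
        ph.ker = Subgroup.closure (Li G) → RBs K QBar H θ := by
  obtain ⟨ha, -, hmin, -, -⟩ := pidx_pos hn G hG
  rcases hR with ⟨j, hj⟩ | ⟨j, U, hU1, hU2, hr⟩
  · -- `G / Z_j(G)` is `1`, `S_3` or `A_4`
    have hle : Subgroup.closure (Li G) ≤ Subgroup.upperCentralSeries G j := by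
      have h0 := le_ucs _ (H86.HT.tt_normal hn G hG) k hk
      rcases hj with h | ⟨⟨e⟩⟩ | ⟨⟨e⟩⟩
      · rw [h]
        exact le_top
      · exact h0.trans (ucs_le j (cen_of e s3_cen) k)
      · exact h0.trans (ucs_le j (cen_of e a4_cen) k)
    refine ⟨1, zero_le_one, fun g hg => ?_, fun H _ _ ph hs hker => ?_⟩
    · have hne : g ≠ 1 := fun h => hg (by rw [h]; exact Subgroup.one_mem _)
      have h1 : indG G ≤ ind (g : Equiv.Perm (Fin n)) := hmin g hne
      have h2 : indG G ≠ ind (g : Equiv.Perm (Fin n)) := fun h =>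
        hg (Subgroup.subset_closure ⟨hne, h.symm⟩)
      rw [one_mul]
      exact_mod_cast lt_of_le_of_ne h1 h2
    · exact H67.RB3.rbs_of_rbt (rbq ph hs j (by rw [hker]; exact hle) hj z hz)
  · exact H67.HS.rbs_cr hn G hG j U hU1 hU2 hr K z hz

/-- THEOREM HT -/
theorem ht_fin (hA : ∀ p : ℕ, p.Prime → APm3 p) (hU : ∀ p : ℕ, p.Prime → APu3 p) (n : ℕ)
    (hn : 2 ≤ n) (G : Subgroup (Equiv.Perm (Fin n))) (hG : MulAction.IsPretransitive G (Fin n))
    (T : Subgroup G)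
    (hT : T = Subgroup.closure {h : G | h ≠ 1 ∧ Spec.ind (h : Equiv.Perm (Fin n)) = Spec.indG G})
    (k : ℕ) (hk : T ⊓ (⊤ : Subgroup G).lowerCentralSeries k = ⊥) :
    ∃ m : ℕ, 0 < m ∧ ∃ K₀ : IntermediateField ℚ (AlgebraicClosure ℚ), NumberField K₀ ∧
      ∀ K : IntermediateField ℚ (AlgebraicClosure ℚ), ∀ _ : NumberField K,
      (∃ z : K, IsPrimitiveRoot z m) →
        (CR G T → ∃ C : ℝ, 0 < C ∧ ∀ B : ℝ, 3 ≤ B → Spec.nK K (AlgebraicClosure ℚ) G B ≤
          ((⌊C * (B ^ (1 / (Spec.indG G : ℝ)) *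
            Real.log B ^ (Spec.betaAll K (AlgebraicClosure ℚ) G - 1))⌋₊ : ℕ) : ℕ∞)) ∧
        (CT G → (K₀ ≤ K ∨ Spec.IsGaloisGroup K (AlgebraicClosure ℚ) G) →
          (∃ c B₀ : ℝ, 0 < c ∧ ∀ B : ℝ, B₀ ≤ B →
            ((⌈c * B ^ (1 / (Spec.indG G : ℝ)) *
              Real.log B ^ (Spec.betaAll K (AlgebraicClosure ℚ) G - 1)⌉₊ : ℕ) : ℕ∞) ≤
                Spec.nK K (AlgebraicClosure ℚ) G B) ∧
          (CR G T → (∀ B : ℝ, Spec.nK K (AlgebraicClosure ℚ) G B ≠ ⊤) ∧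
            ∃ C : ℝ, 0 < C ∧ Filter.Tendsto
              (fun B : ℝ => ((Spec.nK K (AlgebraicClosure ℚ) G B).toNat : ℝ) /
                (B ^ (1 / (Spec.indG G : ℝ)) *
                  Real.log B ^ (Spec.betaAll K (AlgebraicClosure ℚ) G - 1)))
              Filter.atTop (nhds C))) := by
  subst hT
  obtain ⟨m₁, hm₁, h31, K₀, hK₀, h1⟩ : ∃ m : ℕ, 0 < m ∧ 3 ∣ m ∧
      ∃ K₀ : IntermediateField ℚ (AlgebraicClosure ℚ), NumberField K₀ ∧ (CT G →
      ∀ K : IntermediateField ℚ (AlgebraicClosure ℚ), ∀ _ : NumberField K,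
      (∃ z : K, IsPrimitiveRoot z m) →
        (K₀ ≤ K ∨ Spec.IsGaloisGroup K (AlgebraicClosure ℚ) G) →
          (∃ c B₀ : ℝ, 0 < c ∧ ∀ B : ℝ, B₀ ≤ B →
            ((⌈c * B ^ (1 / (Spec.indG G : ℝ)) *
              Real.log B ^ (Spec.betaAll K (AlgebraicClosure ℚ) G - 1)⌉₊ : ℕ) : ℕ∞) ≤
                Spec.nK K (AlgebraicClosure ℚ) G B) ∧
          ((∃ θ : ℝ, 0 ≤ θ ∧
            (∀ g : G, g ∉ Subgroup.closure (Li G) →
              θ * (Spec.indG G : ℝ) < (Spec.ind (g : Equiv.Perm (Fin n)) : ℝ)) ∧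
            ∀ (H : Type) [Group H] [Finite H] (ph : G →* H), Function.Surjective ph →
              ph.ker = Subgroup.closure (Li G) → RBs K QBar H θ) →
            Asy G K)) := by
    by_cases hC : CT G
    · obtain ⟨m, hm, h3, K₀, hK₀, h⟩ := ht_ks hA hU n hn G hG k hk hC
      exact ⟨m, hm, h3, K₀, hK₀, fun _ => h⟩
    · obtain ⟨K₀, hK₀, -⟩ := H38.BG.akn G
      exact ⟨3, by norm_num, dvd_rfl, K₀, hK₀, fun h => absurd h hC⟩
  obtain ⟨m₂, hm₂, h32, h2⟩ := ht_us hU n hn G hG k hk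
  have hm : 0 < m₁ * m₂ := Nat.mul_pos hm₁ hm₂
  refine ⟨m₁ * m₂, hm, K₀, hK₀, fun K hK hz => ?_⟩
  obtain ⟨z, hz⟩ := hz
  have hz1 : ∃ z : K, IsPrimitiveRoot z m₁ := ⟨z ^ m₂, hz.pow hm (mul_comm _ _)⟩
  have hz2 : ∃ z : K, IsPrimitiveRoot z m₂ := ⟨z ^ m₁, hz.pow hm rfl⟩
  obtain ⟨q, hq⟩ := h31
  have hz3 : IsPrimitiveRoot (z ^ (q * m₂)) 3 := hz.pow hm (by rw [hq]; ring)
  refine ⟨fun hR => h2 K hK hz2 (rbs_cond hn G hG k hk hR K _ hz3), fun hC hG' => ?_⟩
  obtain ⟨h3, h4⟩ := h1 hC K hK hz1 hG'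
  refine ⟨h3, fun hR => ?_⟩
  obtain ⟨C, hC0, kk, hk1, hk2⟩ := h4 (rbs_cond hn G hG k hk hR K _ hz3)
  refine ⟨fun B => ?_, C, hC0, ?_⟩
  · rw [hk1 B]
    exact ENat.natCast_ne_top _
  · refine hk2.congr fun B => ?_
    rw [hk1 B, ENat.toNat_natCast]

end H86.HS
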