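import Mathlib

/-!
# HS, chapter ALG: stable ideals of a complete local ring

`R` a noetherian local ring, `G` a set of ring automorphisms of `R` (the automorphisms which occur in lifts), `G N ⊆ G` the ones with
reduction `≡ x mod x ^ N`.  `hcont`: the elements of `G N` are the identity modulo `𝔪 ^ s`, `N` large.  `hchai`: a prime ideal stable under
`G N` for some `N` belongs to `L`, a chain.  Then a proper ideal `J` stable under `G` has radical in `L`.

PROOF.  `J.minimalPrimes` is finite (`Ideal.finite_minimalPrimes_of_isNoetherianRing`).  `g J = J` (`le` and noetherian, or `hinv`) so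
`g` permutes the minimal primes over `J`.  For `P ≠ Q` prime there is `s` with `P ⊔ 𝔪 ^ s ≠ Q ⊔ 𝔪 ^ s`:
`⨅ s, (P ⊔ 𝔪 ^ s) = P` (Krull, in `R ⧸ P`).  `g ≡ id mod 𝔪 ^ s`: `g P ⊔ 𝔪 ^ s = P ⊔ 𝔪 ^ s`.  With `s` large for all pairs of minimal
primes: `g P = P` for `g ∈ G N`.  So all minimal primes are in `L`; they are pairwise incomparable: exactly one, and it is `J.radical`
(`Ideal.sInf_minimalPrimes`).
-/

namespace Pool.Agent.H86.HS

/-- Krull: the `P ⊔ 𝔪 ^ s` determine `P` -/
private theorem sep {R : Type*} [CommRing R] [IsNoetherianRing R] [IsLocalRing R] {P Q : Ideal R}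
    (h : ∀ s : ℕ, P ≤ Q ⊔ IsLocalRing.maximalIdeal R ^ s) : P ≤ Q := by
  intro x hx
  have h1 : (⨅ i : ℕ, IsLocalRing.maximalIdeal R ^ i • (⊤ : Submodule R (R ⧸ Q))) = ⊥ :=
    Ideal.iInf_pow_smul_eq_bot_of_isLocalRing _ (Ideal.IsPrime.ne_top inferInstance)
  have h2 : (Ideal.Quotient.mk Q x : R ⧸ Q) ∈
      (⨅ i : ℕ, IsLocalRing.maximalIdeal R ^ i • (⊤ : Submodule R (R ⧸ Q))) := by
    rw [Submodule.mem_iInf]
    intro i
    obtain ⟨a, ha, b, hb, rfl⟩ := Submodule.mem_sup.1 (h i hx)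
    rw [map_add, Ideal.Quotient.eq_zero_iff_mem.2 ha, zero_add]
    have h3 : (Ideal.Quotient.mk Q b : R ⧸ Q) = b • (1 : R ⧸ Q) := by
      rw [Algebra.smul_def, mul_one]
      rfl
    rw [h3]
    exact Submodule.smul_mem_smul hb Submodule.mem_top
  rw [h1, Submodule.mem_bot] at h2
  exact Ideal.Quotient.eq_zero_iff_mem.1 h2

/-- a stable ideal of a noetherian ring is its own inverse image -/
private theorem comap_eq {R : Type*} [CommRing R] [IsNoetherianRing R] (g : R ≃+* R) {J : Ideal R}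
    (h : J.map (g : R →+* R) ≤ J) : J.comap (g : R →+* R) = J := by
  have hle : J ≤ J.comap (g : R →+* R) := Ideal.map_le_iff_le_comap.1 h
  have hmono : Monotone fun n : ℕ => (Ideal.comap (g : R →+* R))^[n] J := by
    refine monotone_nat_of_le_succ fun n => ?_
    have h1 : ∀ n : ℕ, (Ideal.comap (g : R →+* R))^[n] J ≤ (Ideal.comap (g : R →+* R))^[n + 1] J := by
      intro n
      induction n with
      | zero => exact hle
      | succ n ih =>
        rw [Function.iterate_succ_apply', Function.iterate_succ_apply' _ (n + 1)]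
        exact Ideal.comap_mono ih
    exact h1 n
  obtain ⟨n, hn⟩ := monotone_stabilizes_iff_noetherian.2 (inferInstance : IsNoetherian R R) ⟨_, hmono⟩
  have h2 := hn (n + 1) (Nat.le_succ n)
  have hinj : Function.Injective (Ideal.comap (g : R →+* R)) :=
    Ideal.comap_injective_of_surjective _ g.surjective
  have h3 : (Ideal.comap (g : R →+* R))^[n] J = (Ideal.comap (g : R →+* R))^[n + 1] J := h2
  rw [Function.iterate_succ_apply] at h3
  exact ((hinj.iterate n) h3).symm

theorem radical_mem {R : Type*} [CommRing R] [IsNoetherianRing R] [IsLocalRing R]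
    (G : ℕ → Set (R ≃+* R)) (hG : ∀ N, G N ⊆ G 0)
    (hcont : ∀ s : ℕ, ∃ N, ∀ g ∈ G N, ∀ x, g x - x ∈ IsLocalRing.maximalIdeal R ^ s)
    (L : Set (Ideal R)) (hL : ∀ P ∈ L, ∀ Q ∈ L, P ≤ Q ∨ Q ≤ P)
    (hchai : ∀ P : Ideal R, P.IsPrime → (∃ N, ∀ g ∈ G N, P.map (g : R →+* R) ≤ P) → P ∈ L)
    {J : Ideal R} (hJ : J ≠ ⊤) (hst : ∀ g ∈ G 0, J.map (g : R →+* R) ≤ J) : J.radical ∈ L := by
  classical
  have hfin := Ideal.finite_minimalPrimes_of_isNoetherianRing R J
  -- one power of the maximal ideal separates all minimal primes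
  obtain ⟨S, hS⟩ : ∃ S : ℕ, ∀ P ∈ J.minimalPrimes, ∀ Q ∈ J.minimalPrimes,
      P ≤ Q ⊔ IsLocalRing.maximalIdeal R ^ S → P ≤ Q := by
    have h1 : ∀ t : Ideal R × Ideal R, ∃ s : ℕ,
        t.1 ≤ t.2 ⊔ IsLocalRing.maximalIdeal R ^ s → t.1 ≤ t.2 := by
      intro t
      by_contra hcon
      push Not at hcon
      exact (hcon 0).2 (sep fun s => (hcon s).1)
    choose s hs using h1
    refine ⟨(hfin.toFinset ×ˢ hfin.toFinset).sup s, fun P hP Q hQ hPQ => ?_⟩
    have hmem : (P, Q) ∈ hfin.toFinset ×ˢ hfin.toFinset :=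
      Finset.mem_product.2 ⟨hfin.mem_toFinset.2 hP, hfin.mem_toFinset.2 hQ⟩
    refine hs (P, Q) (hPQ.trans ?_)
    exact sup_le_sup le_rfl (Ideal.pow_le_pow_right (Finset.le_sup hmem))
  obtain ⟨N, hN⟩ := hcont S
  -- the minimal primes are stable
  have hstab : ∀ P ∈ J.minimalPrimes, ∀ g ∈ G N, P.map (g : R →+* R) ≤ P := by
    intro P hP g hg
    have hJg := comap_eq g (hst g (hG N hg))
    have h1 : P ∈ Ideal.comap (g : R →+* R) '' J.minimalPrimes := by
      rw [← Ideal.comap_minimalPrimes_eq_of_surjective g.surjective J, hJg]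
      exact hP
    have h2 : P.comap (g : R →+* R) ∈ J.minimalPrimes := by
      rw [← hJg, Ideal.comap_minimalPrimes_eq_of_surjective g.surjective J]
      exact ⟨P, hP, rfl⟩
    refine Ideal.map_le_iff_le_comap.2 (hS P hP _ h2 fun x hx => ?_)
    -- `x = y + (g y - y)`
    have h3 : g (g.symm x) = x := g.apply_symm_apply x
    have h4 : x = g.symm x + (g (g.symm x) - g.symm x) := by rw [h3]; ring
    rw [h4]
    refine Submodule.add_mem_sup ?_ (hN g hg _)
    rw [Ideal.mem_comap]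
    show g (g.symm x) ∈ P
    rw [h3]
    exact hx
  have hall : ∀ P ∈ J.minimalPrimes, P ∈ L := fun P hP => hchai P hP.1.1 ⟨N, hstab P hP⟩
  obtain ⟨P, hP⟩ := Ideal.nonempty_minimalPrimes hJ
  have huniq : J.minimalPrimes = {P} := by
    refine Set.eq_singleton_iff_unique_mem.2 ⟨hP, fun Q hQ => ?_⟩
    rcases hL P (hall P hP) Q (hall Q hQ) with h | h
    · exact le_antisymm (hQ.2 hP.1 h) h
    · exact le_antisymm h (hP.2 hQ.1 h)
  rw [← Ideal.sInf_minimalPrimes, huniq, sInf_singleton]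
  exact hall P hP

end Pool.Agent.H86.HS
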