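import Pool.Agent.H86.HS.Defs

/-!
# HS, chapter CAT: the nilpotence argument (helper86)

`ξ : I → 1`; `te ξ N Z : I ⊗ (.. ⊗ (I ⊗ Z)) → Z`, the class `Nil ξ` of the `Z` with `te ξ N Z = 0` for some `N` is a thick
tensor-ideal.  `ξ` = fibre of a coevaluation `1 → X ⊗ X'`.
-/

open CategoryTheory Limits Pretriangulated MonoidalCategory Category
open scoped ZeroObject

namespace Pool.Agent.H86.HS

universe v u

section pow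

variable {T : Type u} [Category.{v} T] [MonoidalCategory T]

/-- `I ⊗ (.. ⊗ (I ⊗ Z))` -/
def tp (I : T) : ℕ → T → T
  | 0, Z => Z
  | N + 1, Z => I ⊗ tp I N Z

/-- `ξ ⊗ .. ⊗ ξ ⊗ Z` -/
def te {I : T} (ξ : I ⟶ 𝟙_ T) : ∀ (N : ℕ) (Z : T), tp I N Z ⟶ Z
  | 0, Z => 𝟙 Z
  | N + 1, Z => (ξ ▷ tp I N Z) ≫ (λ_ (tp I N Z)).hom ≫ te ξ N Z

/-- functoriality -/
def tm (I : T) : ∀ (N : ℕ) {Y Z : T} (_ : Y ⟶ Z), tp I N Y ⟶ tp I N Z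
  | 0, _, _, f => f
  | N + 1, _, _, f => I ◁ tm I N f

variable {I : T} (ξ : I ⟶ 𝟙_ T)

theorem te_nat (N : ℕ) {Y Z : T} (f : Y ⟶ Z) : tm I N f ≫ te ξ N Z = te ξ N Y ≫ f := by
  induction N with
  | zero =>
    show f ≫ 𝟙 Z = 𝟙 Y ≫ f
    rw [comp_id, id_comp]
  | succ N ih =>
    show (I ◁ tm I N f) ≫ (ξ ▷ tp I N Z) ≫ (λ_ (tp I N Z)).hom ≫ te ξ N Z =
      ((ξ ▷ tp I N Y) ≫ (λ_ (tp I N Y)).hom ≫ te ξ N Y) ≫ f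
    rw [whisker_exchange_assoc, leftUnitor_naturality_assoc, ih, assoc, assoc]

theorem te_add (a b : ℕ) (Z : T) : ∃ φ : tp I (b + a) Z ⟶ tp I a (tp I b Z),
    te ξ (b + a) Z = φ ≫ te ξ a (tp I b Z) ≫ te ξ b Z := by
  induction a with
  | zero =>
    refine ⟨𝟙 _, ?_⟩
    show te ξ b Z = 𝟙 _ ≫ 𝟙 _ ≫ te ξ b Z
    rw [id_comp, id_comp]
  | succ a ih =>
    obtain ⟨φ, hφ⟩ := ih
    refine ⟨I ◁ φ, ?_⟩
    show (ξ ▷ tp I (b + a) Z) ≫ (λ_ (tp I (b + a) Z)).hom ≫ te ξ (b + a) Z =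
      (I ◁ φ) ≫ ((ξ ▷ tp I a (tp I b Z)) ≫ (λ_ (tp I a (tp I b Z))).hom ≫
        te ξ a (tp I b Z)) ≫ te ξ b Z
    rw [hφ, assoc, assoc, whisker_exchange_assoc, leftUnitor_naturality_assoc]

theorem te_tensor (N : ℕ) (Z W : T) : ∃ φ : tp I N (Z ⊗ W) ⟶ tp I N Z ⊗ W,
    te ξ N (Z ⊗ W) = φ ≫ (te ξ N Z ▷ W) := by
  induction N with
  | zero =>
    refine ⟨𝟙 _, ?_⟩
    show 𝟙 (Z ⊗ W) = 𝟙 _ ≫ (𝟙 Z ▷ W)
    rw [id_comp, id_whiskerRight]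
  | succ N ih =>
    obtain ⟨φ, hφ⟩ := ih
    refine ⟨(I ◁ φ) ≫ (α_ I (tp I N Z) W).inv, ?_⟩
    show (ξ ▷ tp I N (Z ⊗ W)) ≫ (λ_ (tp I N (Z ⊗ W))).hom ≫ te ξ N (Z ⊗ W) =
      ((I ◁ φ) ≫ (α_ I (tp I N Z) W).inv) ≫
        (((ξ ▷ tp I N Z) ≫ (λ_ (tp I N Z)).hom ≫ te ξ N Z) ▷ W)
    rw [hφ, comp_whiskerRight, comp_whiskerRight, assoc, ← associator_inv_naturality_left_assoc,
      whisker_exchange_assoc, leftUnitor_whiskerRight, assoc, Iso.inv_hom_id_assoc,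
      leftUnitor_naturality_assoc]

theorem te_tensor' (N : ℕ) (Z W : T) : ∃ ψ : tp I N Z ⊗ W ⟶ tp I N (Z ⊗ W),
    ψ ≫ te ξ N (Z ⊗ W) = te ξ N Z ▷ W := by
  induction N with
  | zero =>
    refine ⟨𝟙 _, ?_⟩
    show 𝟙 _ ≫ 𝟙 (Z ⊗ W) = (𝟙 Z ▷ W)
    rw [id_comp, id_whiskerRight]
  | succ N ih =>
    obtain ⟨ψ, hψ⟩ := ih
    refine ⟨(α_ I (tp I N Z) W).hom ≫ (I ◁ ψ), ?_⟩
    show ((α_ I (tp I N Z) W).hom ≫ (I ◁ ψ)) ≫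
        (ξ ▷ tp I N (Z ⊗ W)) ≫ (λ_ (tp I N (Z ⊗ W))).hom ≫ te ξ N (Z ⊗ W) =
        (((ξ ▷ tp I N Z) ≫ (λ_ (tp I N Z)).hom ≫ te ξ N Z) ▷ W)
    rw [assoc, whisker_exchange_assoc, leftUnitor_naturality_assoc, hψ, comp_whiskerRight,
      comp_whiskerRight, leftUnitor_whiskerRight, assoc, ← associator_naturality_left_assoc]

end pow

section thick

variable {T : Type u} [Category.{v} T] [HasZeroObject T] [Preadditive T] [HasShift T ℤ]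
  [∀ n : ℤ, (shiftFunctor T n).Additive] [Pretriangulated T]

theorem IsThick.iso {P : T → Prop} (hP : IsThick P) {A B : T} (e : A ≅ B) (h : P B) : P A :=
  hP.retract A B e.hom e.inv e.hom_inv_id h

theorem IsThick.of_susp {P : T → Prop} (hP : IsThick P) {A : T} (h : P (A⟦(1 : ℤ)⟧)) : P A :=
  hP.iso ((shiftEquiv T (1 : ℤ)).unitIso.app A) (hP.desusp _ h)

theorem IsThick.fibre {P : T → Prop} (hP : IsThick P) {A B C : T} {f : A ⟶ B} {g : B ⟶ C}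
    {h : C ⟶ A⟦(1 : ℤ)⟧} (hT : Triangle.mk f g h ∈ distTriang T) (hB : P B) (hC : P C) : P A :=
  hP.of_susp (hP.cofibre _ _ _ _ _ _ (rot_of_distTriang _ hT) hB hC)

theorem IsThick.mid {P : T → Prop} (hP : IsThick P) {A B C : T} {f : A ⟶ B} {g : B ⟶ C}
    {h : C ⟶ A⟦(1 : ℤ)⟧} (hT : Triangle.mk f g h ∈ distTriang T) (hA : P A) (hC : P C) : P B :=
  hP.of_susp (hP.cofibre _ _ _ _ _ _ (rot_of_distTriang _ (rot_of_distTriang _ hT)) hC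
    (hP.susp _ hA))

variable [MonoidalCategory T] [MonoidalPreadditive T]

theorem susp_iso (hT : TensorExact T) (A : T) :
    Nonempty (A⟦(1 : ℤ)⟧ ≅ (𝟙_ T)⟦(1 : ℤ)⟧ ⊗ A) := by
  obtain ⟨h', hh⟩ := hT A _ _ _ _ _ _ (contractible_distinguished₂ (𝟙_ T))
  have h1 : IsZero ((0 : T) ⊗ A) := by
    rw [IsZero.iff_id_eq_zero, ← id_whiskerRight, (isZero_zero T).eq_of_src (𝟙 (0 : T)) 0,
      MonoidalPreadditive.zero_whiskerRight]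
  have h2 : IsIso h' := (Triangle.isZero₂_iff_isIso₃ _ hh).1 h1
  exact ⟨((shiftFunctor T (1 : ℤ)).mapIso (λ_ A)).symm ≪≫ (asIso h').symm⟩

theorem desusp_iso (hT : TensorExact T) (A : T) :
    Nonempty (A⟦(-1 : ℤ)⟧ ≅ (𝟙_ T)⟦(-1 : ℤ)⟧ ⊗ A) := by
  obtain ⟨e1⟩ := susp_iso hT ((𝟙_ T)⟦(-1 : ℤ)⟧ ⊗ A)
  obtain ⟨e2⟩ := susp_iso hT ((𝟙_ T)⟦(-1 : ℤ)⟧)
  have e3 : (𝟙_ T)⟦(-1 : ℤ)⟧⟦(1 : ℤ)⟧ ≅ 𝟙_ T := (shiftEquiv T (1 : ℤ)).counitIso.app (𝟙_ T)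
  have e4 : ((𝟙_ T)⟦(-1 : ℤ)⟧ ⊗ A)⟦(1 : ℤ)⟧ ≅ A :=
    e1 ≪≫ (α_ _ _ _).symm ≪≫ whiskerRightIso (e2.symm ≪≫ e3) A ≪≫ λ_ A
  exact ⟨(shiftFunctor T (-1 : ℤ)).mapIso e4.symm ≪≫
    ((shiftEquiv T (1 : ℤ)).unitIso.app _).symm⟩

/-- a class closed under isomorphism and `S ⊗ -` is closed under suspensions and desuspensions -/
theorem susp_of (hT : TensorExact T) {P : T → Prop} (hiso : ∀ {A B : T}, (A ≅ B) → P B → P A)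
    (hten : ∀ S A : T, P A → P (S ⊗ A)) {A : T} (h : P A) :
    P (A⟦(1 : ℤ)⟧) ∧ P (A⟦(-1 : ℤ)⟧) := by
  obtain ⟨e1⟩ := susp_iso hT A
  obtain ⟨e2⟩ := desusp_iso hT A
  exact ⟨hiso e1 (hten _ _ h), hiso e2 (hten _ _ h)⟩

/-- the objects killed by a power of `ξ` -/
def Nil {I : T} (ξ : I ⟶ 𝟙_ T) (Z : T) : Prop := ∃ N, te ξ N Z = 0

variable {I : T} (ξ : I ⟶ 𝟙_ T)

theorem Nil.ret {A B : T} (i : A ⟶ B) (r : B ⟶ A) (h : i ≫ r = 𝟙 A) (hB : Nil ξ B) :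
    Nil ξ A := by
  obtain ⟨N, hN⟩ := hB
  refine ⟨N, ?_⟩
  have h1 : te ξ N A = (te ξ N A ≫ i) ≫ r := by rw [assoc, h, comp_id]
  rw [h1, ← te_nat, hN, comp_zero, zero_comp]

theorem Nil.mid {A B C : T} {f : A ⟶ B} {g : B ⟶ C} {h : C ⟶ A⟦(1 : ℤ)⟧}
    (hT : Triangle.mk f g h ∈ distTriang T) (hA : Nil ξ A) (hC : Nil ξ C) : Nil ξ B := by
  obtain ⟨a, ha⟩ := hA
  obtain ⟨b, hb⟩ := hC
  obtain ⟨s, hs⟩ : ∃ s : tp I b B ⟶ A, te ξ b B = s ≫ f :=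
    Triangle.coyoneda_exact₂ _ hT (te ξ b B) (by
      show te ξ b B ≫ g = 0
      rw [← te_nat, hb, comp_zero])
  obtain ⟨φ, hφ⟩ := te_add ξ a b B
  refine ⟨b + a, ?_⟩
  rw [hφ, hs, ← assoc (te ξ a _) s f, ← te_nat, ha, comp_zero, zero_comp, comp_zero]

theorem Nil.ten {Z : T} (W : T) (h : Nil ξ Z) : Nil ξ (Z ⊗ W) := by
  obtain ⟨N, hN⟩ := h
  obtain ⟨φ, hφ⟩ := te_tensor ξ N Z W
  exact ⟨N, by rw [hφ, hN, MonoidalPreadditive.zero_whiskerRight, comp_zero]⟩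

variable [BraidedCategory T]

theorem Nil.ten' {Z : T} (W : T) (h : Nil ξ Z) : Nil ξ (W ⊗ Z) :=
  Nil.ret ξ (β_ W Z).hom (β_ W Z).inv (Iso.hom_inv_id _) (Nil.ten ξ W h)

theorem Nil.isThick (hT : TensorExact T) : IsThick (Nil ξ) where
  zero := fun X hX => ⟨0, hX.eq_of_tgt _ _⟩
  susp := fun X hX => (susp_of hT (P := Nil ξ) (fun e h => Nil.ret ξ e.hom e.inv e.hom_inv_id h)
    (fun S A h => Nil.ten' ξ S h) hX).1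
  desusp := fun X hX => (susp_of hT (P := Nil ξ) (fun e h => Nil.ret ξ e.hom e.inv e.hom_inv_id h)
    (fun S A h => Nil.ten' ξ S h) hX).2
  cofibre := fun A B C f g h hh hA hB => Nil.mid ξ (rot_of_distTriang _ hh) hB
    ((susp_of hT (P := Nil ξ) (fun e h => Nil.ret ξ e.hom e.inv e.hom_inv_id h)
    (fun S A h => Nil.ten' ξ S h) hA).1)
  retract := fun A B i r h hB => Nil.ret ξ i r h hB

/-- the class of the `Z` with `Z ⊗ Y` killed by a power of `ξ` -/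
theorem Nil.isThick_tensor (hT : TensorExact T) (Y : T) : IsThick (fun Z => Nil ξ (Z ⊗ Y)) where
  zero := fun X hX => (Nil.isThick ξ hT).zero _ (by
    rw [IsZero.iff_id_eq_zero, ← id_whiskerRight, hX.eq_of_src (𝟙 X) 0, MonoidalPreadditive.zero_whiskerRight])
  susp := fun X hX => (susp_of hT (P := fun Z => Nil ξ (Z ⊗ Y))
    (fun e h => Nil.ret ξ (whiskerRightIso e Y).hom (whiskerRightIso e Y).inv
      (Iso.hom_inv_id _) h)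
    (fun S A h => Nil.ret ξ (α_ S A Y).hom (α_ S A Y).inv (Iso.hom_inv_id _)
      (Nil.ten' ξ S h)) hX).1
  desusp := fun X hX => (susp_of hT (P := fun Z => Nil ξ (Z ⊗ Y))
    (fun e h => Nil.ret ξ (whiskerRightIso e Y).hom (whiskerRightIso e Y).inv
      (Iso.hom_inv_id _) h)
    (fun S A h => Nil.ret ξ (α_ S A Y).hom (α_ S A Y).inv (Iso.hom_inv_id _)
      (Nil.ten' ξ S h)) hX).2
  cofibre := fun A B C f g h hh hA hB => by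
    obtain ⟨h', hh'⟩ := hT Y A B C f g h hh
    exact (Nil.isThick ξ hT).cofibre _ _ _ _ _ _ hh' hA hB
  retract := fun A B i r h hB => Nil.ret ξ (i ▷ Y) (r ▷ Y)
    (by rw [← comp_whiskerRight, h, id_whiskerRight]) hB

/-- `X` is killed by the fibre of its coevaluation -/
theorem nil_dual {X X' : T} [ExactPairing X X'] {f : I ⟶ 𝟙_ T}
    (hf : f ≫ (η_ X X' : 𝟙_ T ⟶ X ⊗ X') = 0) : f ▷ X = 0 := by
  have h2 := ExactPairing.evaluation_coevaluation X X'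
  have h1 : (f ▷ X) ≫ ((η_ X X') ▷ X) = 0 := by
    rw [← comp_whiskerRight, hf, MonoidalPreadditive.zero_whiskerRight]
  have h3 : (f ▷ X) ≫ ((λ_ X).hom ≫ (ρ_ X).inv) = 0 := by
    rw [← h2, ← assoc, h1, zero_comp]
  have h4 := congrArg (fun z => z ≫ ((ρ_ X).hom ≫ (λ_ X).inv)) h3
  simpa using h4

omit [BraidedCategory T] in
/-- the cones of the powers of the fibre of a coevaluation belong to the thick tensor-ideal -/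
theorem cone_mem [IsTriangulated T] (hT : TensorExact T)
    (hdual : IsThick (IsDualizable (T := T))) {C : T → Prop} (hC : IsThickTensorIdeal C)
    {Q : T} (hQ : C Q) {η : 𝟙_ T ⟶ Q} {δ : Q ⟶ I⟦(1 : ℤ)⟧}
    (hξ : Triangle.mk ξ η δ ∈ distTriang T) (N : ℕ) :
    ∃ (Z : T) (c : 𝟙_ T ⟶ Z) (d : Z ⟶ (tp I N (𝟙_ T))⟦(1 : ℤ)⟧),
      Triangle.mk (te ξ N (𝟙_ T)) c d ∈ distTriang T ∧ C Z := by
  have hone : IsDualizable (𝟙_ T) := ⟨𝟙_ T, ⟨inferInstance⟩⟩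
  induction N with
  | zero => exact ⟨0, 0, 0, contractible_distinguished (𝟙_ T), hC.thick.zero _ (isZero_zero T)⟩
  | succ N ih =>
    obtain ⟨Z, c, d, hd, hZ⟩ := ih
    have hP : IsDualizable (tp I N (𝟙_ T)) := hdual.fibre hd hone (hC.dual _ hZ)
    obtain ⟨δ', hδ⟩ := hT (tp I N (𝟙_ T)) _ _ _ _ _ _ hξ
    have hu : Triangle.mk ((ξ ▷ tp I N (𝟙_ T)) ≫ (λ_ (tp I N (𝟙_ T))).hom)
        ((λ_ (tp I N (𝟙_ T))).inv ≫ (η ▷ tp I N (𝟙_ T))) δ' ∈ distTriang T := by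
      refine isomorphic_distinguished _ hδ _ ?_
      refine Triangle.isoMk _ _ (Iso.refl _) (λ_ (tp I N (𝟙_ T))).symm (Iso.refl _) ?_ ?_ ?_
      · show ((ξ ▷ tp I N (𝟙_ T)) ≫ (λ_ (tp I N (𝟙_ T))).hom) ≫ (λ_ (tp I N (𝟙_ T))).inv =
          𝟙 _ ≫ (ξ ▷ tp I N (𝟙_ T))
        rw [assoc, Iso.hom_inv_id, comp_id, id_comp]
      · show ((λ_ (tp I N (𝟙_ T))).inv ≫ (η ▷ tp I N (𝟙_ T))) ≫ 𝟙 _ =
          (λ_ (tp I N (𝟙_ T))).inv ≫ (η ▷ tp I N (𝟙_ T))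
        rw [comp_id]
      · show δ' ≫ (shiftFunctor T (1 : ℤ)).map (𝟙 _) = 𝟙 _ ≫ δ'
        rw [(shiftFunctor T (1 : ℤ)).map_id, comp_id, id_comp]
    obtain ⟨Z', c', d', hd'⟩ := distinguished_cocone_triangle (te ξ (N + 1) (𝟙_ T))
    refine ⟨Z', c', d', hd', ?_⟩
    have comm : ((ξ ▷ tp I N (𝟙_ T)) ≫ (λ_ (tp I N (𝟙_ T))).hom) ≫ te ξ N (𝟙_ T) =
        te ξ (N + 1) (𝟙_ T) := by
      rw [assoc]
      rfl
    have oct := Triangulated.someOctahedron comm hu hd hd'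
    exact hC.thick.mid oct.mem (hC.tensor _ _ hQ hP) hZ

/-- **CAT** -/
theorem mem_of [IsTriangulated T] (hT : TensorExact T)
    (hdual : IsThick (IsDualizable (T := T))) {E : T} (hE : InIdeal E (𝟙_ T)) {C : T → Prop}
    (hC : IsThickTensorIdeal C) {X Y : T} (hX : C X) (hY : IsDualizable Y)
    (h : InThick (E ⊗ X) (E ⊗ Y)) : C Y := by
  obtain ⟨X', ⟨ep⟩⟩ := hC.dual X hX
  obtain ⟨I, ξ, δ, hξ⟩ := distinguished_cocone_triangle₁ (η_ X X' : 𝟙_ T ⟶ X ⊗ X')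
  have hX' : IsDualizable X' := ⟨X, ⟨BraidedCategory.exactPairing_swap X X'⟩⟩
  have h0 : ξ ▷ X = 0 := nil_dual (comp_distTriang_mor_zero₁₂ _ hξ)
  have h1 : Nil ξ X := ⟨1, by
    show (ξ ▷ X) ≫ (λ_ X).hom ≫ 𝟙 X = 0
    rw [h0, zero_comp]⟩
  have h2 : Nil ξ (E ⊗ Y) := h _ (Nil.isThick ξ hT) (Nil.ten' ξ E h1)
  have h3 : Nil ξ (𝟙_ T ⊗ Y) := hE _ (Nil.isThick_tensor ξ hT Y)
    (fun Z W hZ => Nil.ret ξ
      ((α_ Z W Y).hom ≫ (Z ◁ (β_ W Y).hom) ≫ (α_ Z Y W).inv)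
      ((α_ Z Y W).hom ≫ (Z ◁ (β_ W Y).inv) ≫ (α_ Z W Y).inv) (by simp)
      (Nil.ten ξ W hZ)) h2
  obtain ⟨N, hN⟩ := h3
  obtain ⟨Z, c, d, hd, hZ⟩ := cone_mem ξ hT hdual hC (hC.tensor _ _ hX hX') hξ N
  obtain ⟨d', hd'⟩ := hT Y _ _ _ _ _ _ hd
  obtain ⟨ψ, hψ⟩ := te_tensor' ξ N (𝟙_ T) Y
  have h4 : te ξ N (𝟙_ T) ▷ Y = 0 := by rw [← hψ, hN, comp_zero]
  obtain ⟨r, hr⟩ : ∃ r : Z ⊗ Y ⟶ 𝟙_ T ⊗ Y, 𝟙 (𝟙_ T ⊗ Y) = (c ▷ Y) ≫ r :=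
    Triangle.yoneda_exact₂ _ hd' (𝟙 (𝟙_ T ⊗ Y)) (by
      show (te ξ N (𝟙_ T) ▷ Y) ≫ 𝟙 _ = 0
      rw [h4, zero_comp])
  have h5 : C (𝟙_ T ⊗ Y) := hC.thick.retract _ _ (c ▷ Y) r hr.symm (hC.tensor _ _ hZ hY)
  exact hC.thick.iso (λ_ Y).symm h5

end thick

end Pool.Agent.H86.HS
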