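import Pool.Agent.H86.LT.Nf

/-!
# HS, chapter CONT: the Lubin-Tate action is continuous

`cm f c = f ∘ c`.  `cont_abs`: `f ∘ c = (g c) ∘ f`, `c = [p]_F`, `q = p ^ (m + 1)`, `f ≡ X mod (𝔪, X ^ (q ^ S))`; then
`g ≡ id mod 𝔪 ^ (S + 1)`.

PROOF.  Induction on `s ≤ S`: (i) `g x - x ∈ 𝔪 ^ (s + 1)` for all `x`; (ii) `d i := coeff i f - coeff i X ∈ 𝔪 ^ (s + 1)` for
`i < q ^ (S - s)`.  `s = 0`: hypothesis.  Step (`s < S`, `N = q ^ (S - s) ≥ q`, modulo `𝔪 ^ (s + 2)`, coefficients of index `< N`):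
`(g c) ∘ f ≡ g c` (`f ≡ X mod 𝔪 ^ (s + 1)` in this range, the coefficients of `g c` of index prime to `p` and `p` are in `𝔪`:
truncated form of `LT.pertG`), so `(f - X) ∘ c ≡ g c - c`.  For the coefficient of index `l < q`:
`∑_(1 ≤ i ≤ l) d i * coeff l (c ^ i)`, `coeff l (c ^ i) ∈ 𝔪`: so `g (coeff l c) - coeff l c ∈ 𝔪 ^ (s + 2)` for `l < q`.  These
coefficients and `p` generate `𝔪`, `g (r b) - r b = g r * (g b - b) + (g r - r) * b`: `g b - b ∈ 𝔪 ^ (s + 2)` for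
`b ∈ 𝔪`, and for all `b` by `hfix`: (i).  Then `(f - X) ∘ c ≡ 0`; coefficient of index `q * i < N`: strong induction on `i`:
`d i' * coeff (q i) (c ^ i') ∈ 𝔪 ^ (s + 2)` for `i' < i` (induction) and for `i' > i` (`coeff (q i) (c ^ i') ∈ 𝔪`, since `c` has order
`≥ q` modulo `𝔪`); `coeff (q i) (c ^ i)` is `(coeff q c) ^ i` modulo `𝔪`: so `d i ∈ 𝔪 ^ (s + 2)`: (ii).
-/

open PowerSeries

namespace Pool.Agent.H86.HS

open Pool.Agent.H86.NF (cm)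

theorem cont_abs {R : Type*} [CommRing R] {p : ℕ} [Fact p.Prime] {𝔪 : Ideal R} (hp𝔪 : (p : R) ∈ 𝔪)
    {q : ℕ} (hq : 2 ≤ q) {c f : R⟦X⟧} (hc0 : constantCoeff c = 0) (hf0 : constantCoeff f = 0)
    (hp : ∀ i, ¬ p ∣ i → coeff i c ∈ 𝔪) (hd : ∀ i < q, coeff i c ∈ 𝔪) (hu : IsUnit (coeff q c))
    (g : R →+* R) (hg : ∀ x, g x - x ∈ 𝔪) (hfix : ∀ x, ∃ w, g w = w ∧ x - w ∈ 𝔪)
    (hgen : 𝔪 ≤ Ideal.span ({(p : R)} ∪ {x | ∃ i, i < q ∧ x = coeff i c}))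
    (hcf : cm f c = cm (PowerSeries.map g c) f) (S : ℕ)
    (hS : ∀ i < q ^ S, coeff i f - coeff i (X : R⟦X⟧) ∈ 𝔪) (x : R) :
    g x - x ∈ 𝔪 ^ (S + 1) := by
  sorry

end Pool.Agent.H86.HS
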