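import Mathlib

/-!
# Thick tensor-ideals in tensor triangulated categories: definitions (helper86)
-/

open CategoryTheory Limits Pretriangulated MonoidalCategory

namespace Pool.Agent.H86.HS

universe v u

/-- dualizable objects of a monoidal category -/
def IsDualizable {T : Type u} [Category.{v} T] [MonoidalCategory T] (X : T) : Prop :=
  ∃ Y : T, Nonempty (ExactPairing X Y)

section

variable {T : Type u} [Category.{v} T] [HasZeroObject T] [Preadditive T] [HasShift T ℤ]
  [∀ n : ℤ, (shiftFunctor T n).Additive] [Pretriangulated T]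

/-- the class `P` of objects contains `0` and is closed under suspensions, desuspensions, cofibres and
retracts -/
structure IsThick (P : T → Prop) : Prop where
  zero : ∀ X, IsZero X → P X
  susp : ∀ X, P X → P (X⟦(1 : ℤ)⟧)
  desusp : ∀ X, P X → P (X⟦(-1 : ℤ)⟧)
  cofibre : ∀ (A B C : T) (f : A ⟶ B) (g : B ⟶ C) (h : C ⟶ A⟦(1 : ℤ)⟧),
    Triangle.mk f g h ∈ distTriang T → P A → P B → P C
  retract : ∀ (A B : T) (i : A ⟶ B) (r : B ⟶ A), i ≫ r = 𝟙 A → P B → P A

/-- `B` belongs to the thick subcategory generated by `A` -/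
def InThick (A B : T) : Prop := ∀ P : T → Prop, IsThick P → P A → P B

variable [MonoidalCategory T]

/-- `B` belongs to the thick tensor-ideal generated by `A` -/
def InIdeal (A B : T) : Prop :=
  ∀ P : T → Prop, IsThick P → (∀ X Y, P X → P (X ⊗ Y)) → P A → P B

/-- the tensor product is exact: `- ⊗ X` maps a distinguished triangle `A → B → C → A[1]` to a
distinguished triangle `A ⊗ X → B ⊗ X → C ⊗ X → (A ⊗ X)[1]` -/
def TensorExact (T : Type u) [Category.{v} T] [HasZeroObject T] [Preadditive T] [HasShift T ℤ]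
    [∀ n : ℤ, (shiftFunctor T n).Additive] [Pretriangulated T] [MonoidalCategory T] : Prop :=
  ∀ (X A B C : T) (f : A ⟶ B) (g : B ⟶ C) (h : C ⟶ A⟦(1 : ℤ)⟧),
    Triangle.mk f g h ∈ distTriang T →
      ∃ h' : C ⊗ X ⟶ (A ⊗ X)⟦(1 : ℤ)⟧, Triangle.mk (f ▷ X) (g ▷ X) h' ∈ distTriang T

/-- A thick tensor-ideal of the category of dualizable objects: a class of dualizable objects which
contains `0` and is closed under suspensions and desuspensions, cofibres, retracts, and `X ↦ X ⊗ Y` for
arbitrary dualizable `Y`. -/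
structure IsThickTensorIdeal (C : T → Prop) : Prop where
  thick : IsThick C
  dual : ∀ X, C X → IsDualizable X
  tensor : ∀ X Y, C X → IsDualizable Y → C (X ⊗ Y)

end

end Pool.Agent.H86.HS
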