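import Pool.Agent.H86.HS.Fld
import Pool.Agent.H51.HC.Fin

/-!
# H86-HS-FIN: theorem HT with `RBs` (MP_b39724_nt)

As H51/HC/Fin.lean (helper51) with the bound `RBs` for the surjective homomorphisms to `G / T`.
-/

set_option autoImplicit false

open scoped NumberField
open IsDedekindDomain Filter Topology H38.ML
open scoped Classical

noncomputable section

namespace H86.HS

open H63.MA H38.BB H38.BG H57.PC H57.BRA H63.BU H77.PC3 H57.CC H38.AS H77.S0T H77.AB H77.GN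
  H77.UX H77.FLD H77.PLF H51.PF H51.NS H51.F3 H12.S3 H51.HC

/-- a quotient by the subgroup generated by the elements of least index is the group `H` of the frame -/
theorem ht_ks (hA : ∀ p : ℕ, p.Prime → APm3 p) (hU : ∀ p : ℕ, p.Prime → APu3 p) (n : ℕ)
    (hn : 2 ≤ n) (G : Subgroup (Equiv.Perm (Fin n))) (hG : MulAction.IsPretransitive G (Fin n))
    (k : ℕ) (hk : Subgroup.closure (Li G) ⊓ (⊤ : Subgroup G).lowerCentralSeries k = ⊥)
    (hC : CT G) :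
    ∃ m : ℕ, 0 < m ∧ 3 ∣ m ∧ ∃ K₀ : IntermediateField ℚ (AlgebraicClosure ℚ), NumberField K₀ ∧
      ∀ K : IntermediateField ℚ (AlgebraicClosure ℚ), ∀ _ : NumberField K,
      (∃ z : K, IsPrimitiveRoot z m) →
        (K₀ ≤ K ∨ Spec.IsGaloisGroup K (AlgebraicClosure ℚ) G) →
          (∃ c B₀ : ℝ, 0 < c ∧ ∀ B : ℝ, B₀ ≤ B →
            ((⌈c * B ^ (1 / (Spec.indG G : ℝ)) *
              Real.log B ^ (Spec.betaAll K (AlgebraicClosure ℚ) G - 1)⌉₊ : ℕ) : ℕ∞) ≤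
                Spec.nK K (AlgebraicClosure ℚ) G B) ∧
          ((∃ θ : ℝ, 0 ≤ θ ∧
            (∀ g : G, g ∉ Subgroup.closure (Li G) →
              θ * (Spec.indG G : ℝ) < (Spec.ind (g : Equiv.Perm (Fin n)) : ℝ)) ∧
            ∀ (H : Type) [Group H] [Finite H] (ph : G →* H), Function.Surjective ph →
              ph.ker = Subgroup.closure (Li G) → RBs K QBar H θ) →
            Asy G K) := by
  obtain ⟨p, N, P, H, iP, iH, fP, fH, hp, hN, hL, ⟨F⟩⟩ := hfr n hn G hG k hk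
  obtain ⟨M, hM, hPL⟩ := hpf hp (hA p hp) (hU p hp) hN F hL hC
  obtain ⟨K₀, hK₀, h0⟩ := H38.BG.akn G
  have hcard : 0 < Nat.card G := Nat.card_pos
  have hp0 := hp.pos
  have hm : 0 < Nat.card G * p ^ M * 3 := by positivity
  refine ⟨Nat.card G * p ^ M * 3, hm, Dvd.intro_left _ rfl, K₀, hK₀, fun K hK hz hG' => ?_⟩
  obtain ⟨z, hz⟩ := hz
  have hz1 : ∃ z : K, IsPrimitiveRoot z (Nat.card G) := ⟨z ^ (p ^ M * 3), hz.pow hm (by ring)⟩
  have hzM : ∃ z : K, IsPrimitiveRoot z (p ^ M) := ⟨z ^ (Nat.card G * 3), hz.pow hm (by ring)⟩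
  have hρ : ∃ ρ : Gal(H38.ML.QBar/K) →* G, Function.Surjective ρ ∧ H38.ML.FT ρ := by
    rcases hG' with h | h
    · exact (h0 K h hK).1
    · exact h
  refine ⟨low_k hn hG hp F M hM hPL hρ hz1 hzM, ?_⟩
  rintro ⟨θ, hθ, hr, hRB⟩
  refine asy_ks hn hG hp F M hM hPL hρ hz1 hzM θ hθ (hRB H F.Q.ph F.Q.phs F.ker) fun g hg => ?_
  refine hr g fun h => hg ?_
  rw [← F.ker, MonoidHom.mem_ker] at h
  exact h

/-- the upper bound -/
theorem ht_us (hU : ∀ p : ℕ, p.Prime → APu3 p) (n : ℕ)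
    (hn : 2 ≤ n) (G : Subgroup (Equiv.Perm (Fin n))) (hG : MulAction.IsPretransitive G (Fin n))
    (k : ℕ) (hk : Subgroup.closure (Li G) ⊓ (⊤ : Subgroup G).lowerCentralSeries k = ⊥) :
    ∃ m : ℕ, 0 < m ∧ 3 ∣ m ∧
      ∀ K : IntermediateField ℚ (AlgebraicClosure ℚ), ∀ _ : NumberField K,
      (∃ z : K, IsPrimitiveRoot z m) →
          ((∃ θ : ℝ, 0 ≤ θ ∧
            (∀ g : G, g ∉ Subgroup.closure (Li G) →
              θ * (Spec.indG G : ℝ) < (Spec.ind (g : Equiv.Perm (Fin n)) : ℝ)) ∧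
            ∀ (H : Type) [Group H] [Finite H] (ph : G →* H), Function.Surjective ph →
              ph.ker = Subgroup.closure (Li G) → RBs K QBar H θ) →
            ∃ C : ℝ, 0 < C ∧ ∀ B : ℝ, 3 ≤ B → Spec.nK K (AlgebraicClosure ℚ) G B ≤
              ((⌊C * (B ^ (1 / (Spec.indG G : ℝ)) *
                Real.log B ^ (Spec.betaAll K (AlgebraicClosure ℚ) G - 1))⌋₊ : ℕ) : ℕ∞)) := by
  obtain ⟨p, N, P, H, iP, iH, fP, fH, hp, hN, hL, ⟨F⟩⟩ := hfr n hn G hG k hk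
  obtain ⟨M, hM, hPU⟩ := pun3 hp (hU p hp) (H35.NS2.bl2_all hp) (H35.NS2.gp2_all hp) P F.pg
  have hcard : 0 < Nat.card G := Nat.card_pos
  have hp0 := hp.pos
  have hm : 0 < Nat.card G * p ^ M * 3 := by positivity
  refine ⟨Nat.card G * p ^ M * 3, hm, Dvd.intro_left _ rfl, fun K hK hz => ?_⟩
  obtain ⟨z, hz⟩ := hz
  have hz1 : ∃ z : K, IsPrimitiveRoot z (Nat.card G) := ⟨z ^ (p ^ M * 3), hz.pow hm (by ring)⟩
  have hzM : ∃ z : K, IsPrimitiveRoot z (p ^ M) := ⟨z ^ (Nat.card G * 3), hz.pow hm (by ring)⟩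
  rintro ⟨θ, hθ, hr, hRB⟩
  refine upp_ks hn hG hp F M hM (hPU N F.Q.cP hN) hz1 hzM θ hθ (hRB H F.Q.ph F.Q.phs F.ker)
    fun g hg => ?_
  refine hr g fun h => hg ?_
  rw [← F.ker, MonoidHom.mem_ker] at h
  exact h

end H86.HS
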