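import Pool.Agent.H86.HS.Lim
import Pool.Agent.H67.RB3.Sch3
import Pool.Agent.H51.HC.Fld

/-!
# H86-HS-FLD: fields over one `K`, with `RBs` (MP_b39724_nt)

As H51/HC/Fld.lean (helper51) with `RBs`. `hb_fin0`: finitely many homomorphisms to a finite group `H` which are unramified outside `S0`.
-/

set_option autoImplicit false

open scoped NumberField
open IsDedekindDomain Filter Topology H38.ML
open scoped Classical

noncomputable section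

namespace H86.HS

open H63.MA H38.BB H38.BG H57.PC H57.BRA H63.BU H77.PC3 H57.CC H38.AS H77.S0T H77.AB H77.GN
  H77.UX H77.FLD H77.PLF H51.PF H51.NS H51.F3 H12.S3 H51.HC

/-- a number field with a primitive root of unity of order at least `3` is totally complex -/
theorem tc_of {K : Type} [Field K] [NumberField K] {m : ℕ} (hm : 3 ≤ m) {z : K}
    (hz : IsPrimitiveRoot z m) : NumberField.IsTotallyComplex K := by
  refine ⟨fun v => ?_⟩
  rw [← NumberField.InfinitePlace.not_isReal_iff_isComplex]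
  intro hv
  obtain ⟨σ, hσ⟩ : ∃ σ : K →+* ℝ, σ = NumberField.InfinitePlace.embedding_of_isReal hv := ⟨_, rfl⟩
  have h1 : IsPrimitiveRoot (σ z) m := hz.map_of_injective σ.injective
  have h2 : |σ z| ^ m = 1 := by
    rw [← abs_pow, h1.pow_eq_one, abs_one]
  have h3 : |σ z| = 1 := (pow_eq_one_iff_of_nonneg (abs_nonneg _) (by omega)).1 h2
  have h4 : σ z ^ 2 = 1 := by
    rw [← sq_abs, h3, one_pow]
  have h5 := h1.dvd_of_pow_eq_one 2 h4
  have := Nat.le_of_dvd (by norm_num) h5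
  omega

theorem hb_fin0 {K : IntermediateField ℚ (AlgebraicClosure ℚ)} [NumberField K] {p M : ℕ}
    (hp : p.Prime) (hM : 2 ≤ M) {z₂ : K} (hz2 : IsPrimitiveRoot z₂ (p ^ M)) (H : Type) [Group H]
    [Finite H] {ζ : K} (D : RD0 K p ζ) (L : LDs D QBar) : (H51.TC.HB D L H ∅).Finite := by
  have h3 : 3 ≤ p ^ M := by
    have h1 : 2 ^ 2 ≤ p ^ M :=
      (Nat.pow_le_pow_left hp.two_le 2).trans (Nat.pow_le_pow_right hp.pos hM)
    omega
  have : NumberField.IsTotallyComplex K := tc_of h3 hz2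
  exact H86.HT.rblt_fin D L H _ (rblt_of D L H _ (H67.RB3.rbt_all H)) ∅

section one

variable {n p N : ℕ} {G : Subgroup (Equiv.Perm (Fin n))} {P H : Type} [Group P] [Group H]

variable {K : IntermediateField ℚ (AlgebraicClosure ℚ)} [hKf : NumberField K]

/-- the asymptotic formula over one `K` -/
theorem asy_ks [Finite H] (hn : 2 ≤ n) (hG : MulAction.IsPretransitive G (Fin n)) (hp : p.Prime)
    (F : HF G p N P H) (M : ℕ) (hM : 2 ≤ M) (hPL : PLf p M F.Q.cP)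
    (hρ : ∃ ρ : Gal(QBar/K) →* G, Function.Surjective ρ ∧ FT ρ)
    (hz : ∃ z : K, IsPrimitiveRoot z (Nat.card G)) (hz₂ : ∃ z : K, IsPrimitiveRoot z (p ^ M))
    (θ : ℝ) (hθ : 0 ≤ θ) (hRB : RBs K QBar H θ)
    (hr : ∀ g : G, F.Q.ph g ≠ 1 → θ * (indG G : ℝ) < (ind (g : Equiv.Perm (Fin n)) : ℝ)) :
    Asy G K := by
  have : NeZero p := ⟨hp.ne_zero⟩
  have : Fact p.Prime := ⟨hp⟩
  obtain ⟨c₁, B₀, hc₁, hlo⟩ := low_k hn hG hp F M hM hPL hρ hz hz₂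
  obtain ⟨z₂, hz2⟩ := hz₂
  have hp2 : MOne p K := mone_of hp hM hz2
  obtain ⟨ζ, hζ⟩ : ∃ ζ : K, IsPrimitiveRoot ζ p := by
    refine ⟨z₂ ^ p ^ (M - 1), hz2.pow (pow_pos hp.pos _) ?_⟩
    rw [← pow_succ]
    congr 1
    omega
  obtain ⟨c₀, hc₀, hnk⟩ := nk2 G hG
  have i₀ : Fin n := ⟨0, by omega⟩
  obtain ⟨hfin, c, hcl⟩ := hlims G K hn hG hp hp2 hζ hz2 F.Q F.pg hPL.ub hPL.lim θ hθ hRB hr
    (fun D L => hb_fin0 hp hM hz2 H D.toRD0 L) F.cls i₀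
  have hβ := hf_bet F hz
  have hk : ∀ B : ℝ, ∃ k : ℕ, Spec.nK K QBar G B = (k : ℕ∞) ∧
      k * c₀ = (CfinS G K i₀ B).ncard := fun B => hnk K hKf i₀ B (hfin B)
  choose k hk1 hk2 using hk
  have hc₀R : (0 : ℝ) < (c₀ : ℝ) := by exact_mod_cast hc₀
  have hlim : Tendsto (fun B : ℝ => (k B : ℝ) /
        (B ^ (1 / (Spec.indG G : ℝ)) * Real.log B ^ (Spec.betaAll K QBar G - 1)))
        atTop (𝓝 (c / (c₀ : ℝ))) := by
    refine (hcl.div_const (c₀ : ℝ)).congr fun B => ?_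
    rw [← hk2 B, hβ]
    push_cast
    have : H38.ML.indG G = Spec.indG G := rfl
    rw [this]
    field_simp
  refine ⟨c / (c₀ : ℝ), ?_, k, hk1, hlim⟩
  refine lt_of_lt_of_le hc₁ (ge_of_tendsto hlim ?_)
  filter_upwards [eventually_ge_atTop B₀, eventually_gt_atTop 1] with B hB hB1
  have h1 := hlo B hB
  rw [show Spec.nK K (AlgebraicClosure ℚ) G B = (k B : ℕ∞) from hk1 B] at h1
  rw [hβ] at h1 ⊢
  have h2 : (⌈c₁ * B ^ (1 / (indG G : ℝ)) * Real.log B ^ (N - 1)⌉₊ : ℕ) ≤ k B := by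
    exact_mod_cast h1
  have h3 : c₁ * B ^ (1 / (indG G : ℝ)) * Real.log B ^ (N - 1) ≤ (k B : ℝ) :=
    (Nat.le_ceil _).trans (by exact_mod_cast h2)
  have hP : 0 < B ^ (1 / (Spec.indG G : ℝ)) * Real.log B ^ (N - 1) :=
    mul_pos (Real.rpow_pos_of_pos (by linarith) _) (pow_pos (Real.log_pos hB1) _)
  rw [le_div_iff₀ hP, ← mul_assoc]
  exact h3

/-- the upper bound over one `K` -/
theorem upp_ks (hn : 2 ≤ n) (hG : MulAction.IsPretransitive G (Fin n)) (hp : p.Prime)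
    (F : HF G p N P H) (M : ℕ) (hM : 2 ≤ M) (hU : PUb p M F.Q.cP)
    (hz : ∃ z : K, IsPrimitiveRoot z (Nat.card G)) (hz₂ : ∃ z : K, IsPrimitiveRoot z (p ^ M))
    (θ : ℝ) (hθ : 0 ≤ θ) (hRB : RBs K QBar H θ)
    (hr : ∀ g : G, F.Q.ph g ≠ 1 → θ * (indG G : ℝ) < (ind (g : Equiv.Perm (Fin n)) : ℝ)) :
    ∃ C : ℝ, 0 < C ∧ ∀ B : ℝ, 3 ≤ B → Spec.nK K QBar G B ≤
      ((⌊C * (B ^ (1 / (Spec.indG G : ℝ)) *
        Real.log B ^ (Spec.betaAll K QBar G - 1))⌋₊ : ℕ) : ℕ∞) := by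
  have : NeZero p := ⟨hp.ne_zero⟩
  have : Fact p.Prime := ⟨hp⟩
  obtain ⟨z₂, hz2⟩ := hz₂
  have hp2 : MOne p K := mone_of hp hM hz2
  obtain ⟨ζ, hζ⟩ : ∃ ζ : K, IsPrimitiveRoot ζ p := by
    refine ⟨z₂ ^ p ^ (M - 1), hz2.pow (pow_pos hp.pos _) ?_⟩
    rw [← pow_succ]
    congr 1
    omega
  obtain ⟨c₀, hc₀, hnk⟩ := nk2 G hG
  have i₀ : Fin n := ⟨0, by omega⟩
  obtain ⟨hfin, C, hC, hcl⟩ := hups G K hn hG hp hp2 hζ hz2 F.Q F.pg hU θ hθ hRB hr F.cls i₀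
  have hβ := hf_bet F hz
  refine ⟨C, hC, fun B hB => ?_⟩
  obtain ⟨k, hk1, hk2⟩ := hnk K hKf i₀ B (hfin B)
  rw [show Spec.nK K QBar G B = (k : ℕ∞) from hk1, hβ]
  refine Nat.cast_le.2 (Nat.le_floor (le_trans ?_ (hcl B hB)))
  have h1 : k ≤ (CfinS G K i₀ B).ncard := by
    rw [show (CfinS G K i₀ B).ncard = k * c₀ from hk2.symm]
    exact Nat.le_mul_of_pos_right _ hc₀
  exact_mod_cast h1

end one

end H86.HS
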