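import Pool.Agent.H86.HS.Hut
import Pool.Agent.H51.HC.Lim

/-!
# H86-HS-LIM: the number of surjective homomorphisms, with `RBs` (MP_b39724_nt)

As H51/HC/Lim.lean (helper51) with `RBs`, `RBLs` in the place of `RBt`, `RBLt`.
-/

set_option autoImplicit false

open scoped NumberField
open IsDedekindDomain Filter Topology H38.ML
open scoped Classical

noncomputable section

namespace H86.HS

open H63.MA H38.BB H38.BG H57.PC H57.BRA H63.BU H77.PC3 H57.CC H38.AS H77.S0T H77.AB H77.GN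
  H77.UX H77.FLD H77.PLF H51.PF H51.F3 H51.HC

section main0

variable {K : Type} [Field K] [NumberField K] {Ω : Type} [Field Ω] [Algebra K Ω]
  {p : ℕ} {ζ : K}

theorem rbls_of [IsAlgClosure K Ω] (D : RD0 K p ζ) (L : LDs D Ω) (H : Type) [Group H] (θ : ℝ)
    (hH : RBs K Ω H θ) : RBLs D L H θ := by
  intro ε hε
  obtain ⟨Q, hQ⟩ := H51.TC.exists_LQ D L
  obtain ⟨C, hC⟩ := hH Q ε hε
  have hS1 := one_le_nr (D.S0)
  refine ⟨C * nr D.S0 ^ (θ + ε), fun Y hY Rs hRs => ?_⟩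
  have h1 := hC (nr D.S0 * Y) (by nlinarith) Rs (by
    intro φ hφ
    obtain ⟨h2, hs, h3⟩ := hRs φ hφ
    refine ⟨h2, hs, fun T hT => ?_⟩
    have h4 : nr (T \ D.S0) ≤ Y := by
      refine h3 _ fun v hv => ?_
      obtain ⟨h5, h6⟩ := Finset.mem_sdiff.1 hv
      obtain ⟨τ, hτ, hne⟩ := hT v h5
      refine ⟨h6, τ, ?_, hne⟩
      unfold inr
      rw [dif_pos h6, hQ v h6]
      exact hτ
    have h5 : nr (T ∩ D.S0) ≤ nr D.S0 := nr_mono Finset.inter_subset_right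
    calc ∏ v ∈ T, (nm v : ℝ) = nr (T ∩ D.S0) * nr (T \ D.S0) := by
          unfold nr
          rw [← Finset.prod_inter_mul_prod_sdiff]
      _ ≤ nr D.S0 * Y := mul_le_mul h5 h4 (by linarith [one_le_nr (T \ D.S0)])
          (by linarith))
  rwa [Real.mul_rpow (by linarith) (by linarith), ← mul_assoc] at h1

end main0

section main

variable {n : ℕ} (G : Subgroup (Equiv.Perm (Fin n))) (K : IntermediateField ℚ QBar)
  [NumberField K]

/-- the number of surjective homomorphisms -/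
theorem hlims (hn : 2 ≤ n) (hG : MulAction.IsPretransitive G (Fin n))
    {p : ℕ} [NeZero p] (hp : p.Prime) (hp2 : MOne p K) {ζ : K}
    (hζ : IsPrimitiveRoot ζ p) {M : ℕ} {z₂ : K} (hz2 : IsPrimitiveRoot z₂ (p ^ M)) {N : ℕ}
    {P H : Type} [Group P] [Group H] (Q : HX p N G P H) (hP : IsPGroup p P)
    (hU : PUb p M Q.cP) (hLm : PLimT p M Q.cP (Tc Q.cP)) 
    (θ : ℝ) (hθ : 0 ≤ θ) (hRB : RBs K QBar H θ)
    (hr : ∀ g : G, Q.ph g ≠ 1 → θ * (indG G : ℝ) < (ind (g : Equiv.Perm (Fin n)) : ℝ))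
    (hHB : ∀ (D : RD K p ζ) (L : LDs D.toRD0 QBar), (H51.TC.HB D.toRD0 L H ∅).Finite)
    (hI : ∀ h : G, (h ≠ 1 ∧ ind (h : Equiv.Perm (Fin n)) = indG G) ↔
      ∃ i, IsConj h (Q.cl.g i))
    (i₀ : Fin n) :
    (∀ B, (CfinS G K i₀ B).Finite) ∧ ∃ c : ℝ, Tendsto (fun B : ℝ =>
      ((CfinS G K i₀ B).ncard : ℝ) / (B ^ (1 / (indG G : ℝ)) * Real.log B ^ (N - 1)))
        atTop (𝓝 c) := by
  obtain ⟨ha, -, hmin, -, hJ⟩ := pidx_pos hn G hG
  have hfac : {v : Pl K | ((n.factorial : ℕ) : 𝓞 K) ∈ v.asIdeal}.Finite :=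
    finite_above (K := K) (Nat.factorial_ne_zero n)
  obtain ⟨D, hD0⟩ := H38.BB.exists_RD_of K hp hp2 hζ hfac.toFinset
  have hD : ∀ v : Pl K, ((n.factorial : ℕ) : 𝓞 K) ∈ v.asIdeal → v ∈ D.S0 := fun v hv =>
    hD0 v (by
      rw [Set.Finite.mem_toFinset]
      exact hv)
  have hS : ∀ v : Pl K, ((Nat.card G : ℕ) : 𝓞 K) ∈ v.asIdeal → v ∈ D.S0 := fun v hv => by
    apply hD v
    obtain ⟨k, hk⟩ := esp_dvd G
    rw [hk]
    push_cast
    exact Ideal.mul_mem_right _ _ hv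
  obtain ⟨Q'⟩ := exists_DP K QBar
  obtain ⟨r, hr1, hr2, hr3⟩ := rmin hn G hG Q.ph θ (fun g hg h => by
    obtain ⟨i, hi⟩ := (hI g).1 ⟨hg, h⟩
    obtain ⟨x, hx⟩ := isConj_iff.1 hi
    have h1 := hx_cl Q i
    rw [← hx, map_mul, map_mul, map_inv] at h1
    have h2 : Q.ph g = (Q.ph x)⁻¹ * (Q.ph x * Q.ph g * (Q.ph x)⁻¹) * Q.ph x := by group
    rw [h2, h1]
    group) hr
  obtain ⟨L, hLQ⟩ := lds_of hp hζ D.toRD0 Q'
  obtain ⟨⟨wt, hw1, hw2, hw3⟩, C, hC, hup⟩ := hutsj hp hζ hz2 D L Q hP hU θ hθ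
    (rbls_of _ _ _ θ hRB) hS (indG G) r ha hr1 hr2
    (fun H => n - orbs (H.map G.subtype))
    (fun H hH => by
      have := hJ H hH
      omega)
    (fun g hg h => by
      refine (hI g).1 ⟨hg, le_antisymm ?_ (hmin g hg)⟩
      have h1 : (Subgroup.zpowers g).map G.subtype =
          Subgroup.zpowers (g : Equiv.Perm (Fin n)) := by
        rw [MonoidHom.map_zpowers]
        rfl
      rw [h1] at h
      exact h)
    hr3
  -- the sets are finite
  have hfin : ∀ B, (CfinS G K i₀ B).Finite := by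
    have h1 : ∀ B, 3 ≤ B → (CfinS G K i₀ B).Finite := by
      intro B hB
      by_contra hinf
      obtain ⟨F, hF1, hF2⟩ := Set.Infinite.exists_subset_card_eq hinf
        (⌊C * (B ^ (1 / (indG G : ℝ)) * Real.log B ^ (N - 1))⌋₊ + 1)
      have h2 := hup B hB F (by
        intro φ hφ
        obtain ⟨h3, h4, h5⟩ := hF1 hφ
        exact ⟨h3, h4, fun T hT => (dsm_lo hn G hG K D.toRD0 L i₀ φ h4 h3 T hT).trans h5⟩)
      rw [hF2] at h2
      push_cast at h2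
      have h3 := Nat.lt_floor_add_one (C * (B ^ (1 / (indG G : ℝ)) * Real.log B ^ (N - 1)))
      linarith
    intro B
    refine (h1 (max B 3) (le_max_right _ _)).subset fun φ hφ =>
      ⟨hφ.1, hφ.2.1, hφ.2.2.trans (le_max_left _ _)⟩
  refine ⟨hfin, ?_⟩
  have hE := fun E => hesp hn G hG hp K hp2 hζ hz2 Q hP hU hLm
    hHB
    (fun h i hi => ((hI h).2 ⟨i, hi⟩).2) ha D hD L Q' hLQ i₀ E
  choose hEf c hEc using hE
  have hdm : ∀ (B : ℝ) (E : Finset (Pl K)), 3 ≤ B →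
      ((NE3 G K L Q.cl i₀ E B).ncard : ℝ) ≤
        wt E * (B ^ (1 / (indG G : ℝ)) * Real.log B ^ (N - 1)) := by
    intro B E hB
    have h4 := hw3 B E hB (hEf E B).toFinset (by
      intro φ hφ
      rw [Set.Finite.mem_toFinset] at hφ
      obtain ⟨h5, h6, h7, h8⟩ := hφ
      exact ⟨h5, h6, fun T hT =>
        (dsm_lo hn G hG K D.toRD0 L i₀ φ h6 h5 T hT).trans h7, h8⟩)
    rw [Set.ncard_eq_toFinset_card _ (hEf E B)]
    exact h4
  -- the sum over `E`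
  have hsum : ∀ B : ℝ, ((CfinS G K i₀ B).ncard : ℝ) =
      ∑' E : Finset (Pl K), ((NE3 G K L Q.cl i₀ E B).ncard : ℝ) := by
    intro B
    have hex : ∀ φ : Gal(QBar/K) →* G, ∃ E : Finset (Pl K), FT φ →
        ∀ v, v ∈ E ↔ NeC Q.cl L φ v := by
      intro φ
      by_cases h : FT φ
      · have h5 : {v : Pl K | NeC Q.cl L φ v}.Finite :=
          (H63.BU.uinr_fin L φ h).subset fun v hv => hv.1
        refine ⟨h5.toFinset, fun _ v => ?_⟩
        rw [Set.Finite.mem_toFinset]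
        rfl
      · exact ⟨∅, fun h' => absurd h' h⟩
    choose Ef hEf2 using hex
    have hNE : ∀ E, NE3 G K L Q.cl i₀ E B = {φ ∈ CfinS G K i₀ B | Ef φ = E} := by
      intro E
      ext φ
      constructor
      · rintro ⟨h1, h2, h3, h4⟩
        refine ⟨⟨h1, h2, h3⟩, ?_⟩
        ext v
        rw [hEf2 φ h1 v, h4 v]
      · rintro ⟨⟨h1, h2, h3⟩, h4⟩
        refine ⟨h1, h2, h3, fun v => ?_⟩
        rw [← h4]
        exact hEf2 φ h1 v
    rw [tsum_eq_sum (s := (hfin B).toFinset.image Ef)]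
    · rw [Set.ncard_eq_toFinset_card _ (hfin B), Finset.card_eq_sum_card_image Ef]
      push_cast
      refine Finset.sum_congr rfl fun E _ => ?_
      congr 1
      rw [hNE E, ← Set.ncard_coe_finset]
      congr 1
      ext φ
      simp
    · intro E hE'
      rw [hNE E]
      have : {φ ∈ CfinS G K i₀ B | Ef φ = E} = ∅ := by
        rw [Set.eq_empty_iff_forall_notMem]
        rintro φ ⟨h1, h2⟩
        apply hE'
        rw [Finset.mem_image]
        exact ⟨φ, (hfin B).mem_toFinset.2 h1, h2⟩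
      rw [this, Set.ncard_empty, Nat.cast_zero]
  refine ⟨∑' E, c E, ?_⟩
  have hdom := tendsto_tsum_of_dominated_convergence (𝓕 := (atTop : Filter ℝ))
    (f := fun B E => ((NE3 G K L Q.cl i₀ E B).ncard : ℝ) /
      (B ^ (1 / (indG G : ℝ)) * Real.log B ^ (N - 1))) (g := c) (bound := wt) hw1
    (fun E => hEc E) (by
      filter_upwards [eventually_ge_atTop (3 : ℝ)] with B hB E
      have hlog : 0 < Real.log B := Real.log_pos (by linarith)
      have hP : 0 < B ^ (1 / (indG G : ℝ)) * Real.log B ^ (N - 1) :=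
        mul_pos (Real.rpow_pos_of_pos (by linarith) _) (pow_pos hlog _)
      rw [Real.norm_of_nonneg (div_nonneg (Nat.cast_nonneg _) hP.le), div_le_iff₀ hP]
      exact hdm B E hB)
  refine hdom.congr fun B => ?_
  rw [hsum B, tsum_div_const]

/-- the number of surjective homomorphisms, upper bound -/
theorem hups (hn : 2 ≤ n) (hG : MulAction.IsPretransitive G (Fin n))
    {p : ℕ} [NeZero p] (hp : p.Prime) (hp2 : MOne p K) {ζ : K}
    (hζ : IsPrimitiveRoot ζ p) {M : ℕ} {z₂ : K} (hz2 : IsPrimitiveRoot z₂ (p ^ M)) {N : ℕ}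
    {P H : Type} [Group P] [Group H] (Q : HX p N G P H) (hP : IsPGroup p P)
    (hU : PUb p M Q.cP) 
    (θ : ℝ) (hθ : 0 ≤ θ) (hRB : RBs K QBar H θ)
    (hr : ∀ g : G, Q.ph g ≠ 1 → θ * (indG G : ℝ) < (ind (g : Equiv.Perm (Fin n)) : ℝ))
    (hI : ∀ h : G, (h ≠ 1 ∧ ind (h : Equiv.Perm (Fin n)) = indG G) ↔
      ∃ i, IsConj h (Q.cl.g i))
    (i₀ : Fin n) :
    (∀ B, (CfinS G K i₀ B).Finite) ∧ ∃ C : ℝ, 0 < C ∧ ∀ B : ℝ, 3 ≤ B →
      ((CfinS G K i₀ B).ncard : ℝ) ≤ C * (B ^ (1 / (indG G : ℝ)) * Real.log B ^ (N - 1)) := by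
  obtain ⟨ha, -, hmin, -, hJ⟩ := pidx_pos hn G hG
  have hfac : {v : Pl K | ((n.factorial : ℕ) : 𝓞 K) ∈ v.asIdeal}.Finite :=
    finite_above (K := K) (Nat.factorial_ne_zero n)
  obtain ⟨D, hD0⟩ := H38.BB.exists_RD_of K hp hp2 hζ hfac.toFinset
  have hD : ∀ v : Pl K, ((n.factorial : ℕ) : 𝓞 K) ∈ v.asIdeal → v ∈ D.S0 := fun v hv =>
    hD0 v (by
      rw [Set.Finite.mem_toFinset]
      exact hv)
  have hS : ∀ v : Pl K, ((Nat.card G : ℕ) : 𝓞 K) ∈ v.asIdeal → v ∈ D.S0 := fun v hv => by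
    apply hD v
    obtain ⟨k, hk⟩ := esp_dvd G
    rw [hk]
    push_cast
    exact Ideal.mul_mem_right _ _ hv
  obtain ⟨Q'⟩ := exists_DP K QBar
  obtain ⟨r, hr1, hr2, hr3⟩ := rmin hn G hG Q.ph θ (fun g hg h => by
    obtain ⟨i, hi⟩ := (hI g).1 ⟨hg, h⟩
    obtain ⟨x, hx⟩ := isConj_iff.1 hi
    have h1 := hx_cl Q i
    rw [← hx, map_mul, map_mul, map_inv] at h1
    have h2 : Q.ph g = (Q.ph x)⁻¹ * (Q.ph x * Q.ph g * (Q.ph x)⁻¹) * Q.ph x := by group
    rw [h2, h1]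
    group) hr
  obtain ⟨L, hLQ⟩ := lds_of hp hζ D.toRD0 Q'
  obtain ⟨-, C, hC, hup⟩ := hutsj hp hζ hz2 D L Q hP hU θ hθ
    (rbls_of _ _ _ θ hRB) hS (indG G) r ha hr1 hr2
    (fun H => n - orbs (H.map G.subtype))
    (fun H hH => by
      have := hJ H hH
      omega)
    (fun g hg h => by
      refine (hI g).1 ⟨hg, le_antisymm ?_ (hmin g hg)⟩
      have h1 : (Subgroup.zpowers g).map G.subtype =
          Subgroup.zpowers (g : Equiv.Perm (Fin n)) := by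
        rw [MonoidHom.map_zpowers]
        rfl
      rw [h1] at h
      exact h)
    hr3
  have hF : ∀ B, 3 ≤ B → ∀ F : Finset (Gal(QBar/K) →* G), ↑F ⊆ CfinS G K i₀ B →
      (F.card : ℝ) ≤ C * (B ^ (1 / (indG G : ℝ)) * Real.log B ^ (N - 1)) := by
    intro B hB F hF1
    refine hup B hB F fun φ hφ => ?_
    obtain ⟨h3, h4, h5⟩ := hF1 hφ
    exact ⟨h3, h4, fun T hT => (dsm_lo hn G hG K D.toRD0 L i₀ φ h4 h3 T hT).trans h5⟩
  have hfin : ∀ B, 3 ≤ B → (CfinS G K i₀ B).Finite := by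
    intro B hB
    by_contra hinf
    obtain ⟨F, hF1, hF2⟩ := Set.Infinite.exists_subset_card_eq hinf
      (⌊C * (B ^ (1 / (indG G : ℝ)) * Real.log B ^ (N - 1))⌋₊ + 1)
    have h2 := hF B hB F hF1
    rw [hF2] at h2
    push_cast at h2
    have h3 := Nat.lt_floor_add_one (C * (B ^ (1 / (indG G : ℝ)) * Real.log B ^ (N - 1)))
    linarith
  refine ⟨fun B => (hfin (max B 3) (le_max_right _ _)).subset fun φ hφ =>
      ⟨hφ.1, hφ.2.1, hφ.2.2.trans (le_max_left _ _)⟩, C, hC, fun B hB => ?_⟩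
  rw [Set.ncard_eq_toFinset_card _ (hfin B hB)]
  exact hF B hB _ (by
    intro φ hφ
    exact (hfin B hB).mem_toFinset.1 hφ)

end main

end H86.HS
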